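import Mathlib

/-!
Tuples of good rational approximations of comparable heights
-/

set_option autoImplicit false

namespace Pool.Agent.D0H48.Mv

open Filter

/-- an irrational number which is not approximable with the exponent `2 + ε` has good approximations
with denominators of all sizes -/
theorem conv_one (θ : ℝ) (hirr : Irrational θ) (ε : ℝ) (hL : ¬ LiouvilleWith (2 + ε) θ) :
    ∃ Q₀ : ℕ, ∀ Q : ℕ, Q₀ ≤ Q → ∃ r : ℚ, r.den ≤ Q ∧ (Q : ℝ) ≤ (r.den : ℝ) ^ (1 + ε) ∧
      |θ - r| * (Q * r.den) ≤ 1 := by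
  -- the denominators at least `n₀`
  have h1 : ∀ᶠ n : ℕ in atTop, ∀ m : ℤ, θ ≠ m / n → (1 : ℝ) / (n : ℝ) ^ (2 + ε) ≤ |θ - m / n| := by
    by_contra hcon
    refine hL ⟨1, ?_⟩
    rw [not_eventually] at hcon
    refine hcon.mono fun n hn => ?_
    push Not at hn
    exact hn
  obtain ⟨n₀, hn₀⟩ := eventually_atTop.1 h1
  -- the small denominators
  obtain ⟨η, hη, hηn⟩ : ∃ η : ℝ, 0 < η ∧ ∀ n : ℕ, n < n₀ → 1 ≤ n → ∀ m : ℤ, η ≤ |θ - m / n| := by
    clear hn₀ h1
    induction n₀ with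
    | zero => exact ⟨1, one_pos, fun n hn => absurd hn (Nat.not_lt_zero _)⟩
    | succ N ih =>
      obtain ⟨η, hη, h⟩ := ih
      rcases Nat.eq_zero_or_pos N with hN | hN
      · refine ⟨η, hη, fun n hn hn1 => ?_⟩
        omega
      -- the distance of `N θ` to the integers
      have hNR : (0 : ℝ) < N := by exact_mod_cast hN
      have hirr' : Irrational ((N : ℝ) * θ) := by
        have := hirr.natCast_mul (Nat.pos_iff_ne_zero.1 hN)
        exact this
      have h0 : 0 < |(N : ℝ) * θ - round ((N : ℝ) * θ)| := by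
        rw [abs_pos, sub_ne_zero]
        intro h0
        exact hirr' ⟨(round ((N : ℝ) * θ) : ℤ), by rw [h0]; push_cast; simp⟩
      refine ⟨min η (|(N : ℝ) * θ - round ((N : ℝ) * θ)| / N), lt_min hη (div_pos h0 hNR), ?_⟩
      intro n hn hn1 m
      rcases Nat.lt_succ_iff_lt_or_eq.1 hn with h2 | h2
      · exact (min_le_left _ _).trans (h n h2 hn1 m)
      · subst h2
        refine (min_le_right _ _).trans ?_
        rw [div_le_iff₀ hNR]
        have h3 : |θ - m / n| * n = |(n : ℝ) * θ - m| := by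
          rw [← abs_of_pos hNR, ← abs_mul, abs_of_pos hNR]
          congr 1
          field_simp
        rw [h3]
        exact round_le _ m
  obtain ⟨Q₀, hQ₀⟩ := exists_nat_gt (1 / η)
  refine ⟨Q₀ + 1, fun Q hQ => ?_⟩
  have hQR : (Q₀ : ℝ) + 1 ≤ Q := by exact_mod_cast hQ
  have hQ0 : (0 : ℝ) ≤ Q₀ := Nat.cast_nonneg _
  obtain ⟨r, hr1, hr2⟩ := Real.exists_rat_abs_sub_le_and_den_le θ (show 0 < Q by omega)
  have hden : (1 : ℝ) ≤ r.den := by exact_mod_cast r.den_pos
  have hr3 : |θ - r| * ((Q + 1) * r.den) ≤ 1 := by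
    rwa [le_div_iff₀ (by positivity)] at hr1
  have hr4 : |θ - r| * (Q * r.den) ≤ 1 := by
    refine le_trans ?_ hr3
    have := abs_nonneg (θ - r)
    apply mul_le_mul_of_nonneg_left _ this
    nlinarith
  have hrd : (r : ℝ) = (r.num : ℝ) / (r.den : ℝ) := by
    exact_mod_cast (Rat.num_div_den r).symm
  refine ⟨r, hr2, ?_, hr4⟩
  have hlt : n₀ ≤ r.den := by
    by_contra hcon
    push Not at hcon
    have h2 := hηn r.den hcon r.den_pos r.num
    rw [← hrd] at h2
    rw [div_lt_iff₀ hη] at hQ₀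
    have h3 : η * (Q * 1) ≤ |θ - r| * (Q * r.den) := by
      apply mul_le_mul h2 _ (by positivity) (abs_nonneg _)
      apply mul_le_mul_of_nonneg_left hden (by positivity)
    nlinarith
  have hne : θ ≠ (r.num : ℝ) / (r.den : ℝ) := by
    rw [← hrd]
    exact fun h => hirr ⟨r, h.symm⟩
  have h2 := hn₀ r.den hlt r.num hne
  rw [← hrd, div_le_iff₀ (by positivity)] at h2
  have h3 : (r.den : ℝ) ^ (2 + ε) = (r.den : ℝ) * (r.den : ℝ) ^ (1 + ε) := by
    rw [show (2 : ℝ) + ε = 1 + (1 + ε) by ring, Real.rpow_add (by positivity) 1, Real.rpow_one]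
  rw [h3] at h2
  have h4 : 0 < |θ - r| := by
    rw [abs_pos, sub_ne_zero]
    exact fun h => hirr ⟨r, h.symm⟩
  have h5 : |θ - r| * (r.den : ℝ) * Q ≤ |θ - r| * (r.den : ℝ) * (r.den : ℝ) ^ (1 + ε) := by
    calc |θ - r| * (r.den : ℝ) * Q = |θ - r| * (Q * r.den) := by ring
      _ ≤ 1 := hr4
      _ ≤ |θ - r| * ((r.den : ℝ) * (r.den : ℝ) ^ (1 + ε)) := h2
      _ = _ := by ring
  exact le_of_mul_le_mul_left h5 (by positivity)

/-- almost all numbers are not approximable -/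
theorem ae_conv (m : ℕ) : ∀ᵐ θ : Fin m → ℝ, ∀ i, Irrational (θ i) ∧ ∀ ε : ℝ, 0 < ε →
    ¬ LiouvilleWith (2 + ε) (θ i) := by
  rw [MeasureTheory.ae_all_iff]
  intro i
  have h1 : ∀ᵐ t : ℝ, Irrational t ∧ ∀ ε : ℝ, 0 < ε → ¬ LiouvilleWith (2 + ε) t := by
    have h2 : ∀ᵐ t : ℝ, t ∉ Set.range (fun r : ℚ => (r : ℝ)) :=
      MeasureTheory.measure_eq_zero_iff_ae_notMem.1 ((Set.countable_range _).measure_zero _)
    filter_upwards [h2, ae_not_liouvilleWith] with t ht1 ht2
    exact ⟨ht1, fun ε hε => ht2 _ (by linarith)⟩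
  exact (MeasureTheory.Measure.tendsto_eval_ae_ae
    (μ := fun _ : Fin m => (MeasureTheory.volume : MeasureTheory.Measure ℝ)) (i := i)).eventually h1

/-- the tuples of good approximations are infinitely many -/
theorem conv_infinite {m : ℕ} (hm : 0 < m) (θ : Fin m → ℝ) (hθ : ∀ i, Irrational (θ i) ∧ ∀ ε : ℝ, 0 < ε →
    ¬ LiouvilleWith (2 + ε) (θ i)) (δ : ℝ) (hδ : 0 < δ) :
    {x : Fin m → ℚ | dist θ (fun i => ((x i : ℚ) : ℝ)) ≤
      Real.exp (-((2 * m - δ) / m * ⨆ i, Height.logHeight₁ (x i)))}.Infinite := by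
  intro hfin
  have hmR : (0 : ℝ) < m := by exact_mod_cast hm
  have hmR1 : (1 : ℝ) ≤ m := by exact_mod_cast hm
  have hne : Nonempty (Fin m) := ⟨⟨0, hm⟩⟩
  obtain ⟨C, hC⟩ : ∃ C : ℝ, C = ‖θ‖ + 1 := ⟨_, rfl⟩
  have hC1 : 1 ≤ C := by
    have := norm_nonneg θ
    linarith
  have i₀ : Fin m := ⟨0, hm⟩
  -- the points of the finite set are not too close
  obtain ⟨η, hη, hηx⟩ : ∃ η : ℝ, 0 < η ∧ ∀ x ∈ hfin.toFinset, η ≤ |θ i₀ - (x i₀ : ℚ)| := by
    obtain ⟨T, hT⟩ : ∃ T : Finset (Fin m → ℚ), T = hfin.toFinset := ⟨_, rfl⟩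
    rw [← hT]
    clear hT
    induction T using Finset.induction_on with
    | empty => exact ⟨1, one_pos, by simp⟩
    | insert a s ha ih =>
      obtain ⟨η, hη, h⟩ := ih
      have h0 : 0 < |θ i₀ - (a i₀ : ℚ)| := by
        rw [abs_pos, sub_ne_zero]
        exact fun h => (hθ i₀).1 ⟨a i₀, h.symm⟩
      refine ⟨min η |θ i₀ - (a i₀ : ℚ)|, lt_min hη h0, ?_⟩
      intro x hx
      rw [Finset.mem_insert] at hx
      rcases hx with rfl | hx
      · exact min_le_right _ _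
      · exact (min_le_left _ _).trans (h x hx)
  obtain ⟨δ', hδ', hδ1, hδle⟩ : ∃ δ' : ℝ, 0 < δ' ∧ δ' ≤ 1 ∧ δ' ≤ δ :=
    ⟨min δ 1, lt_min hδ one_pos, min_le_right _ _, min_le_left _ _⟩
  -- `ε`
  obtain ⟨ε, hεd⟩ : ∃ ε : ℝ, ε = δ' / (2 * m) := ⟨_, rfl⟩
  have hε : 0 < ε := by rw [hεd]; positivity
  have hε1 : ε ≤ 1 := by
    rw [hεd, div_le_one (by positivity)]
    linarith
  have h1 := fun i => conv_one (θ i) (hθ i).1 ε ((hθ i).2 ε hε)
  choose Q₀ hQ₀ using h1
  -- a large `Q`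
  obtain ⟨Q, hQ⟩ := exists_nat_gt (max (max (∑ i, (Q₀ i : ℝ)) (1 / η)) (max 1 ((C ^ 2) ^ (1 / (ε / 2)))))
  have hQ1 : (1 : ℝ) < Q := ((le_max_left _ _).trans (le_max_right _ _)).trans_lt hQ
  have hQη : 1 / η < Q := ((le_max_right _ _).trans (le_max_left _ _)).trans_lt hQ
  have hQs : (∑ i, (Q₀ i : ℝ)) < Q := ((le_max_left _ _).trans (le_max_left _ _)).trans_lt hQ
  have hQC : (C ^ 2) ^ (1 / (ε / 2)) < Q := ((le_max_right _ _).trans (le_max_right _ _)).trans_lt hQ
  have hQ0 : (0 : ℝ) < Q := by linarith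
  have hQle : ∀ i, Q₀ i ≤ Q := by
    intro i
    have h2 : (Q₀ i : ℝ) ≤ ∑ i, (Q₀ i : ℝ) :=
      Finset.single_le_sum (f := fun i => (Q₀ i : ℝ)) (fun _ _ => Nat.cast_nonneg _) (Finset.mem_univ i)
    exact_mod_cast (h2.trans hQs.le)
  have hQε : C ^ 2 ≤ (Q : ℝ) ^ (ε / 2) := by
    have h2 := Real.rpow_le_rpow (by positivity) hQC.le (show (0 : ℝ) ≤ ε / 2 by positivity)
    rwa [← Real.rpow_mul (by positivity), one_div_mul_cancel (by positivity), Real.rpow_one] at h2
  have h2 := fun i => hQ₀ i Q (hQle i)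
  choose x hx1 hx2 hx3 using h2
  have hden : ∀ i, (1 : ℝ) ≤ (x i).den := fun i => by exact_mod_cast (x i).den_pos
  -- the distances
  have hdist1 : ∀ i, |θ i - x i| ≤ (Q : ℝ) ^ (-(2 - ε)) := by
    intro i
    have h3 : (Q : ℝ) ^ (1 - ε) ≤ (x i).den := by
      have h4 := Real.rpow_le_rpow hQ0.le (hx2 i) (show (0 : ℝ) ≤ 1 - ε by linarith)
      refine h4.trans ?_
      rw [← Real.rpow_mul (by positivity)]
      nth_rewrite 2 [← Real.rpow_one ((x i).den : ℝ)]
      apply Real.rpow_le_rpow_of_exponent_le (hden i)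
      nlinarith
    have h5 : (Q : ℝ) ^ (2 - ε) = Q * (Q : ℝ) ^ (1 - ε) := by
      rw [show (2 : ℝ) - ε = 1 + (1 - ε) by ring, Real.rpow_add hQ0, Real.rpow_one]
    rw [Real.rpow_neg hQ0.le, ← one_div, le_div_iff₀ (by positivity), h5]
    refine le_trans ?_ (hx3 i)
    apply mul_le_mul_of_nonneg_left _ (abs_nonneg _)
    exact mul_le_mul_of_nonneg_left h3 hQ0.le
  -- the heights
  have hht : ∀ i, Height.logHeight₁ (x i) ≤ Real.log (C * Q) := by
    intro i
    rw [Rat.logHeight₁_eq_log_max]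
    have h3 : ((max (x i).num.natAbs (x i).den : ℕ) : ℝ) ≤ C * Q := by
      have hd : ((x i).den : ℝ) ≤ Q := by exact_mod_cast hx1 i
      push_cast
      refine max_le ?_ (by nlinarith)
      rw [Nat.cast_natAbs, Int.cast_abs]
      have hrd : ((x i : ℚ) : ℝ) = ((x i).num : ℝ) / ((x i).den : ℝ) := by
        exact_mod_cast (Rat.num_div_den (x i)).symm
      have hn : ((x i).num : ℝ) = (x i : ℚ) * (x i).den := by
        rw [hrd, div_mul_cancel₀]
        have := hden i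
        positivity
      rw [hn, abs_mul, abs_of_nonneg (by positivity : (0:ℝ) ≤ (x i).den)]
      have h4 : |((x i : ℚ) : ℝ)| ≤ C := by
        have h5 : |((x i : ℚ) : ℝ)| ≤ |θ i| + |θ i - x i| := by
          have h6 : ((x i : ℚ) : ℝ) = θ i - (θ i - x i) := by ring
          calc |((x i : ℚ) : ℝ)| = |θ i - (θ i - x i)| := by rw [← h6]
            _ ≤ _ := abs_sub _ _
        have h7 : |θ i| ≤ ‖θ‖ := norm_le_pi_norm θ i
        have h8 : |θ i - x i| ≤ 1 := by
          refine (hdist1 i).trans ?_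
          apply Real.rpow_le_one_of_one_le_of_nonpos hQ1.le
          linarith
        rw [hC]
        linarith
      exact mul_le_mul h4 hd (by positivity) (by linarith)
    refine Real.log_le_log ?_ h3
    have := (x i).den_pos
    exact_mod_cast (lt_of_lt_of_le this (le_max_right _ _))
  have hsup : (⨆ i, Height.logHeight₁ (x i)) ≤ Real.log (C * Q) := ciSup_le hht
  have hCQ : 0 ≤ Real.log (C * Q) := Real.log_nonneg (by nlinarith)
  have hmem : x ∈ hfin.toFinset := by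
    rw [Set.Finite.mem_toFinset]
    show dist θ (fun i => ((x i : ℚ) : ℝ)) ≤ _
    have h3 : dist θ (fun i => ((x i : ℚ) : ℝ)) ≤ (Q : ℝ) ^ (-(2 - ε)) := by
      rw [dist_pi_le_iff (by positivity)]
      intro i
      rw [Real.dist_eq]
      exact hdist1 i
    refine h3.trans ?_
    rw [Real.rpow_def_of_pos hQ0]
    apply Real.exp_le_exp.2
    have hsup0 : 0 ≤ ⨆ i, Height.logHeight₁ (x i) :=
      Real.iSup_nonneg fun i => Height.zero_le_logHeight₁ _
    have h4 : (2 * m - δ) / m * (⨆ i, Height.logHeight₁ (x i)) ≤ (2 - 2 * ε) * Real.log (C * Q) := by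
      have h5 : (2 * m - δ) / m ≤ 2 - 2 * ε := by
        rw [hεd, div_le_iff₀ hmR]
        have : (2 - 2 * (δ' / (2 * m))) * m = 2 * m - δ' := by field_simp
        rw [this]
        linarith
      have h6 : 0 ≤ 2 - 2 * ε := by linarith
      exact (mul_le_mul_of_nonneg_right h5 hsup0).trans (mul_le_mul_of_nonneg_left hsup h6)
    have h7 : Real.log (C * Q) = Real.log C + Real.log Q := Real.log_mul (by linarith) (by linarith)
    have h8 : 2 * Real.log C ≤ ε / 2 * Real.log Q := by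
      have h9 := Real.log_le_log (by positivity) hQε
      rw [Real.log_pow, Real.log_rpow hQ0] at h9
      exact_mod_cast h9
    have h10 : 0 ≤ Real.log C := Real.log_nonneg hC1
    have h11 : 0 ≤ Real.log Q := Real.log_nonneg hQ1.le
    rw [h7] at h4
    nlinarith
  have h3 := hηx x hmem
  have h4 := hx3 i₀
  have h5 : η * (Q * 1) ≤ |θ i₀ - x i₀| * (Q * (x i₀).den) := by
    apply mul_le_mul h3 _ (by positivity) (abs_nonneg _)
    exact mul_le_mul_of_nonneg_left (hden i₀) hQ0.le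
  rw [div_lt_iff₀ hη] at hQη
  linarith

end Pool.Agent.D0H48.Mv
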