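import Mathlib
import Pool.Agent.D0H48.Hl.Gauge

/-!
The Hausdorff dimension of the set of the points with infinitely many good approximations in a sparse
set.
-/

set_option autoImplicit false

open MeasureTheory Filter Topology Set
open scoped ENNReal NNReal

namespace Pool.Agent.D0H48.Mv

/-- the points with infinitely many `τ`-approximations in `S` -/
def Bad {X Y : Type*} [MetricSpace Y] (ht : X → ℝ) (ι : X → Y) (τ : ℝ) (S : Set X) : Set Y :=
  {y | {x | x ∈ S ∧ dist y (ι x) ≤ Real.exp (-(τ * ht x))}.Infinite}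

lemma summable_exp {X : Type*} (ht : X → ℝ) (ht0 : ∀ x, 0 ≤ ht x) (S : Set X)
    (D C : ℝ) (hC : 0 ≤ C) (hS : ∀ H : ℝ, 0 ≤ H → (S ∩ {x | ht x ≤ H}).Finite ∧
      ((S ∩ {x | ht x ≤ H}).ncard : ℝ) ≤ C * Real.exp (D * H)) (σ : ℝ) (hσ0 : 0 ≤ σ) (hσ : D < σ) :
    Summable (fun x : {x // x ∈ S} => Real.exp (-(σ * ht x))) := by
  classical
  set a : ℕ → ℝ := fun k => C * Real.exp (D * (k + 1)) * Real.exp (-(σ * k)) with ha
  have ha0 : ∀ k, 0 ≤ a k := fun k => by rw [ha]; positivity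
  have hasum : Summable a := by
    have h1 : a = fun k : ℕ => (C * Real.exp D) * (Real.exp (D - σ)) ^ k := by
      funext k
      rw [ha]
      beta_reduce
      rw [← Real.exp_nat_mul, mul_assoc, mul_assoc, ← Real.exp_add, ← Real.exp_add]
      congr 2
      ring
    rw [h1]
    apply Summable.mul_left
    apply summable_geometric_of_lt_one (Real.exp_pos _).le
    rw [Real.exp_lt_one_iff]
    linarith
  refine summable_of_sum_le (c := ∑' k, a k) (fun x => (Real.exp_pos _).le) ?_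
  intro u
  set h : {x // x ∈ S} → ℕ := fun x => ⌊ht x⌋₊ with hh
  set N : ℕ := u.sup h + 1 with hN
  have hmap : ∀ x ∈ u, h x ∈ Finset.range N := by
    intro x hx
    rw [Finset.mem_range, hN]
    exact Nat.lt_succ_of_le (Finset.le_sup hx)
  rw [← Finset.sum_fiberwise_of_maps_to hmap]
  refine le_trans (Finset.sum_le_sum (g := a) fun k _ => ?_) (hasum.sum_le_tsum _ fun k _ => ha0 k)
  have hterm : ∀ x ∈ u.filter (fun x => h x = k), Real.exp (-(σ * ht x)) ≤ Real.exp (-(σ * k)) := by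
    intro x hx
    rw [Finset.mem_filter] at hx
    apply Real.exp_le_exp.2
    have h1 : (k : ℝ) ≤ ht x := by
      rw [← hx.2]
      exact Nat.floor_le (ht0 _)
    have := mul_le_mul_of_nonneg_left h1 hσ0
    linarith
  refine (Finset.sum_le_sum hterm).trans ?_
  rw [Finset.sum_const, nsmul_eq_mul, ha]
  refine mul_le_mul_of_nonneg_right ?_ (Real.exp_pos _).le
  obtain ⟨hf, hc⟩ := hS (k + 1) (by positivity)
  refine le_trans ?_ hc
  have h1 : ((u.filter (fun x => h x = k)).map ⟨Subtype.val, Subtype.val_injective⟩ : Finset X) ⊆ hf.toFinset := by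
    intro x hx
    rw [Finset.mem_map] at hx
    obtain ⟨y, hy, rfl⟩ := hx
    rw [Finset.mem_filter] at hy
    rw [Set.Finite.mem_toFinset]
    refine ⟨y.2, ?_⟩
    have h2 : ht y < ⌊ht y⌋₊ + 1 := Nat.lt_floor_add_one _
    have h3 : (⌊ht y⌋₊ : ℝ) = k := by exact_mod_cast hy.2
    show ht y ≤ k + 1
    rw [← h3]
    exact h2.le
  have h2 := Finset.card_le_card h1
  rw [Finset.card_map] at h2
  rw [Set.ncard_eq_toFinset_card _ hf]
  exact_mod_cast h2

/-- the Hausdorff measure of the set of the points with infinitely many approximations is zero -/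
theorem bad_null {X Y : Type*} [Countable X] [MetricSpace Y] [MeasurableSpace Y] [BorelSpace Y] (ht : X → ℝ)
    (ht0 : ∀ x, 0 ≤ ht x) (S : Set X)
    (D C : ℝ) (hC : 0 ≤ C) (hS : ∀ H : ℝ, 0 ≤ H → (S ∩ {x | ht x ≤ H}).Finite ∧
      ((S ∩ {x | ht x ≤ H}).ncard : ℝ) ≤ C * Real.exp (D * H)) (ι : X → Y) (τ s : ℝ) (hτ : 0 < τ) (hs : 0 < s)
    (h : D < τ * s) : μH[s] (Bad ht ι τ S) = 0 := by
  classical
  have key := gauge_bc' (X := Y) (ι := {x // x ∈ S}) (fun x => ⌊ht x⌋₊) (by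
    intro J
    obtain ⟨hf, -⟩ := hS J (Nat.cast_nonneg J)
    refine Set.Finite.of_finite_image (f := Subtype.val) ?_ Subtype.val_injective.injOn
    refine hf.subset ?_
    rintro x ⟨y, hy, rfl⟩
    refine ⟨y.2, ?_⟩
    have hy' : ⌊ht y⌋₊ < J := hy
    exact ((Nat.floor_lt (ht0 _)).1 hy').le) (fun x => {y | dist y (ι x) ≤ Real.exp (-(τ * ht x))})
    (fun r => r ^ s) (fun J => ENNReal.ofReal (2 * Real.exp (-(τ * J)))) ?_ 0 ?_
    (fun x => ENNReal.ofReal (2 ^ s * Real.exp (-((τ * s) * ht x)))) ?_ ?_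
  · refine measure_mono_null ?_ key
    intro y hy J
    by_contra hcon
    push Not at hcon
    apply hy
    obtain ⟨hf, -⟩ := hS J (Nat.cast_nonneg J)
    refine hf.subset ?_
    rintro x ⟨hx, hxy⟩
    refine ⟨hx, ?_⟩
    by_contra hlt
    rw [Set.mem_ofPred_eq, not_le] at hlt
    exact hcon ⟨x, hx⟩ (Nat.le_floor hlt.le) hxy
  · have h1 : Tendsto (fun J : ℕ => 2 * Real.exp (-(τ * J))) atTop (𝓝 (2 * 0)) := by
      apply Tendsto.const_mul
      apply Real.tendsto_exp_neg_atTop_nhds_zero.comp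
      exact Tendsto.const_mul_atTop hτ tendsto_natCast_atTop_atTop
    rw [mul_zero] at h1
    have := ENNReal.tendsto_ofReal h1
    rwa [ENNReal.ofReal_zero] at this
  · intro J _ x hJ
    refine (ediam_le _ (Real.exp_pos _).le).trans ?_
    apply ENNReal.ofReal_le_ofReal
    have h1 : (J : ℝ) ≤ ht x := (Nat.cast_le.2 hJ).trans (Nat.floor_le (ht0 _))
    have h2 := mul_le_mul_of_nonneg_left h1 hτ.le
    have h3 : Real.exp (-(τ * ht x)) ≤ Real.exp (-(τ * J)) := Real.exp_le_exp.2 (by linarith)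
    linarith
  · have h1 := (summable_exp ht ht0 S D C hC hS (τ * s) (by positivity) h).mul_left ((2:ℝ) ^ s)
    rw [← ENNReal.ofReal_tsum_of_nonneg (fun x => by positivity) h1]
    exact ENNReal.ofReal_ne_top
  · intro x _
    have h1 := ediam_le (ι x) (Real.exp_pos (-(τ * ht x))).le
    calc Metric.ediam {y | dist y (ι x) ≤ Real.exp (-(τ * ht x))} ^ s
        ≤ (ENNReal.ofReal (2 * Real.exp (-(τ * ht x)))) ^ s := ENNReal.rpow_le_rpow h1 hs.le
      _ = _ := by
          rw [ENNReal.ofReal_rpow_of_nonneg (by positivity) hs.le, Real.mul_rpow (by norm_num) (Real.exp_pos _).le,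
            ← Real.exp_mul]
          congr 3
          ring
  where
  gauge_bc' {X : Type _} [MetricSpace X] [MeasurableSpace X] [BorelSpace X] {ι : Type _} [Countable ι] (h : ι → ℕ)
    (hfin : ∀ J, {i | h i < J}.Finite) (t : ι → Set X) (m : ℝ≥0∞ → ℝ≥0∞) (r : ℕ → ℝ≥0∞) (hr : Tendsto r atTop (𝓝 0))
    (J0 : ℕ) (ht : ∀ J, J0 ≤ J → ∀ i, J ≤ h i → Metric.ediam (t i) ≤ r J) (w : ι → ℝ≥0∞) (hw : ∑' i, w i ≠ ∞)
    (hmw : ∀ i, J0 ≤ h i → m (Metric.ediam (t i)) ≤ w i) :
    Measure.mkMetric m {x | ∀ J, ∃ i, J ≤ h i ∧ x ∈ t i} = 0 :=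
    Pool.Agent.D0H48.Hl.gauge_bc h hfin t m r hr J0 ht w hw hmw
  ediam_le {Y : Type _} [MetricSpace Y] (c : Y) {r : ℝ} (hr : 0 ≤ r) :
      Metric.ediam {y | dist y c ≤ r} ≤ ENNReal.ofReal (2 * r) := by
    apply Metric.ediam_le
    intro x hx y hy
    rw [edist_dist]
    apply ENNReal.ofReal_le_ofReal
    have h1 := dist_triangle_right x y c
    have hx' : dist x c ≤ r := hx
    have hy' : dist y c ≤ r := hy
    linarith

/-- the Hausdorff dimension of the set of the points with infinitely many approximations in a sparse set -/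
theorem bad_dim {X Y : Type*} [Countable X] [MetricSpace Y] (ht : X → ℝ)
    (ht0 : ∀ x, 0 ≤ ht x) (S : Set X)
    (D C : ℝ) (hS : ∀ H : ℝ, 0 ≤ H → (S ∩ {x | ht x ≤ H}).Finite ∧
      ((S ∩ {x | ht x ≤ H}).ncard : ℝ) ≤ C * Real.exp (D * H)) (ι : X → Y) (τ s : ℝ) (hτ : 0 < τ) (hs : 0 < s)
    (h : D < τ * s) : dimH (Bad ht ι τ S) < ENNReal.ofReal s := by
  letI : MeasurableSpace Y := borel Y
  haveI : BorelSpace Y := ⟨rfl⟩
  obtain ⟨s', hs'⟩ : ∃ s', s' = (max D 0 / τ + s) / 2 := ⟨_, rfl⟩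
  have hD0 : 0 ≤ max D 0 / τ := div_nonneg (le_max_right _ _) hτ.le
  have hD1 : max D 0 / τ < s := by
    rw [div_lt_iff₀ hτ]
    apply max_lt
    · linarith
    · positivity
  have h1 : 0 < s' := by rw [hs']; linarith
  have h2 : s' < s := by rw [hs']; linarith
  have h3 : D < τ * s' := by
    have h4 : max D 0 / τ < s' := by rw [hs']; linarith
    rw [div_lt_iff₀ hτ] at h4
    have := le_max_left D 0
    linarith
  have hCC : ∀ H : ℝ, 0 ≤ H → (S ∩ {x | ht x ≤ H}).Finite ∧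
      ((S ∩ {x | ht x ≤ H}).ncard : ℝ) ≤ max C 0 * Real.exp (D * H) := fun H hH =>
    ⟨(hS H hH).1, (hS H hH).2.trans (mul_le_mul_of_nonneg_right (le_max_left _ _) (Real.exp_pos _).le)⟩
  have h5 := bad_null ht ht0 S D (max C 0) (le_max_right _ _) hCC ι τ s' hτ h1 h3
  have h6 : dimH (Bad ht ι τ S) ≤ (s'.toNNReal : ℝ≥0∞) := by
    apply dimH_le_of_hausdorffMeasure_ne_top
    rw [Real.coe_toNNReal _ h1.le, h5]
    exact ENNReal.zero_ne_top
  refine lt_of_le_of_lt h6 ?_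
  rw [← ENNReal.ofReal, ENNReal.ofReal_lt_ofReal_iff hs]
  exact h2

end Pool.Agent.D0H48.Mv
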