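import Mathlib
import Pool.Agent.D0H48.Mv.Dim

/-!
A countable family of sparse sets: almost every point has only finitely many good approximations in
each of them.
-/

set_option autoImplicit false

open MeasureTheory Filter Topology Set
open scoped ENNReal NNReal

namespace Pool.Agent.D0H48.Mv

/-- a countable family of sparse sets -/
theorem metric_family {X Y : Type*} [Countable X] [MetricSpace Y] (ht : X → ℝ)
    (ht0 : ∀ x, 0 ≤ ht x) (D : ℝ) (hD : 0 < D) (S : ℕ → Set X)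
    (hS : ∀ i, ∃ C ν : ℝ, 0 < ν ∧ ∀ H : ℝ, 0 ≤ H → (S i ∩ {x | ht x ≤ H}).Finite ∧
      ((S i ∩ {x | ht x ≤ H}).ncard : ℝ) ≤ C * Real.exp ((D - ν) * H)) :
    ∃ δ : ℕ → ℝ, (∀ i, 0 < δ i) ∧ ∀ (ι : X → Y) (s : ℝ), 0 < s →
      ∃ Θ : ℕ → Set Y, (∀ i, dimH (Θ i) < ENNReal.ofReal s) ∧
        ∀ θ, (∀ i, θ ∉ Θ i) → ∀ i (δ' : ℝ), δ' ≤ δ i →
          {x | x ∈ S i ∧ dist θ (ι x) ≤ Real.exp (-((D - δ') / s * ht x))}.Finite := by
  choose C ν hν hC using hS
  refine ⟨fun i => min (ν i) D / 2, fun i => by have := lt_min (hν i) hD; positivity, ?_⟩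
  intro ι s hs
  refine ⟨fun i => Bad ht ι ((D - min (ν i) D / 2) / s) (S i), ?_, ?_⟩
  · intro i
    have h1 := lt_min (hν i) hD
    have h2 := min_le_left (ν i) D
    have h3 := min_le_right (ν i) D
    refine bad_dim ht ht0 (S i) (D - ν i) (C i) (hC i) ι _ s (by apply div_pos _ hs; linarith) hs ?_
    rw [div_mul_cancel₀ _ hs.ne']
    linarith
  · intro θ hθ i δ' hδ'
    have h1 : ¬ {x | x ∈ S i ∧ dist θ (ι x) ≤ Real.exp (-(((D - min (ν i) D / 2) / s) * ht x))}.Infinite := hθ i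
    rw [Set.not_infinite] at h1
    refine h1.subset ?_
    rintro x ⟨hx, hx2⟩
    refine ⟨hx, hx2.trans ?_⟩
    apply Real.exp_le_exp.2
    have h2 : (D - min (ν i) D / 2) / s ≤ (D - δ') / s := by
      apply div_le_div_of_nonneg_right _ hs.le
      linarith
    have := mul_le_mul_of_nonneg_right h2 (ht0 x)
    linarith

/-- sets of smaller dimension are null sets for Haar measures -/
theorem haar_null {E : Type*} [NormedAddCommGroup E] [NormedSpace ℝ E] [FiniteDimensional ℝ E]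
    [MeasurableSpace E] [BorelSpace E] (μ : Measure E) [μ.IsAddHaarMeasure] (s : Set E)
    (hs : dimH s < ENNReal.ofReal (Module.finrank ℝ E : ℝ)) : μ s = 0 := by
  have h1 : μH[((Module.finrank ℝ E : ℝ≥0) : ℝ)] s = 0 := by
    apply hausdorffMeasure_of_dimH_lt
    rw [ENNReal.ofReal_natCast] at hs
    exact_mod_cast hs
  have h2 : μ ≪ μH[(Module.finrank ℝ E : ℝ)] := Measure.absolutelyContinuous_isAddHaarMeasure _ _
  exact h2 (by simpa using h1)

end Pool.Agent.D0H48.Mv
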