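import Mathlib
import Pool.Agent.D0H48.Mv.Fam
import Pool.Agent.D0H41.OC.Fam2

/-!
The weighted sums of the components at the rational approximations of almost every real point
-/

set_option autoImplicit false

namespace Pool.Agent.D0H48.Mv

open MvPolynomial Pool.Agent.TH910.Voj Pool.Agent.H813R3.Voj Pool.Agent.N445.VW
open Pool.Agent.N445.DF NumberField Pool.Agent.D0H41.OC
open scoped ENNReal

/-- sparse sets in terms of logarithmic heights -/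
theorem sparse_exp {n : ℕ} (P : (Fin (n + 1) → ℤ) → Prop) (h : Sparse (n + 1) (fun _ x => P x)) :
    ∃ C ν : ℝ, 0 < ν ∧ ∀ H : ℝ, 0 ≤ H → ({x | P x} ∩ {x | Real.log (ht x) ≤ H}).Finite ∧
      ((({x | P x} ∩ {x | Real.log (ht x) ≤ H}).ncard : ℕ) : ℝ) ≤ C * Real.exp (((n : ℝ) + 1 - ν) * H) := by
  obtain ⟨c, hc, C, hC, hcount⟩ := h
  refine ⟨C, min c 1, lt_min hc one_pos, fun H hH => ?_⟩
  obtain ⟨B, hB⟩ : ∃ B : ℕ, B = ⌊Real.exp H⌋₊ := ⟨_, rfl⟩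
  have hB1 : 1 ≤ B := by
    rw [hB, Nat.one_le_floor_iff]
    exact Real.one_le_exp hH
  have hBle : (B : ℝ) ≤ Real.exp H := by rw [hB]; exact Nat.floor_le (Real.exp_pos H).le
  have hB1' : (1 : ℝ) ≤ B := by exact_mod_cast hB1
  have hsub : {x | P x} ∩ {x : Fin (n + 1) → ℤ | Real.log (ht x) ≤ H} ⊆ {x | x ∈ box (n + 1) B ∧ P x} := by
    rintro x ⟨hx, hx2⟩
    refine ⟨?_, hx⟩
    have hx3 : Real.log (ht x) ≤ H := hx2
    have h1 : ht x ≤ B := by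
      rcases Nat.eq_zero_or_pos (ht x) with h0 | h0
      · omega
      · rw [hB]
        apply Nat.le_floor
        rw [← Real.exp_log (show (0:ℝ) < ht x by exact_mod_cast h0)]
        exact Real.exp_le_exp.2 hx3
    exact nrm_le.1 h1
  refine ⟨(finite_sub (n + 1) B P).subset hsub, ?_⟩
  have h1 : ((({x | P x} ∩ {x | Real.log (ht x) ≤ H}).ncard : ℕ) : ℝ) ≤
      ((({x | x ∈ box (n + 1) B ∧ P x}).ncard : ℕ) : ℝ) := by
    exact_mod_cast Set.ncard_le_ncard hsub (finite_sub (n + 1) B P)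
  refine h1.trans ((hcount B hB1).trans ?_)
  refine mul_le_mul_of_nonneg_left ?_ hC.le
  push_cast
  have h2 : (B : ℝ) ^ ((n : ℝ) + 1 - c) ≤ (B : ℝ) ^ ((n : ℝ) + 1 - min c 1) := by
    apply Real.rpow_le_rpow_of_exponent_le hB1'
    have := min_le_left c 1
    linarith
  refine h2.trans ?_
  have h3 : 0 ≤ (n : ℝ) + 1 - min c 1 := by
    have := min_le_right c 1
    have h4 : (0:ℝ) ≤ n := Nat.cast_nonneg n
    linarith
  refine (Real.rpow_le_rpow (by linarith) hBle h3).trans (le_of_eq ?_)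
  rw [← Real.exp_mul]
  congr 1
  ring

theorem ht_log_nonneg {n : ℕ} (x : Fin (n + 1) → ℤ) : 0 ≤ Real.log (ht x) := Real.log_natCast_nonneg _

/-- **the inequality at the approximations of almost all points** -/
theorem one_metric {n : ℕ} (hn : 2 ≤ n) {Y : Type} [MetricSpace Y] (ι : (Fin (n + 1) → ℤ) → Y) (s : ℝ)
    (hs : 0 < s) :
    ∃ Θ : ℕ → Set Y, (∀ i, dimH (Θ i) < ENNReal.ofReal s) ∧ ∀ ξ, (∀ i, ξ ∉ Θ i) →
    ∀ (r q t : ℕ) (F H : Fin r → MvPolynomial (Fin (n + 1)) ℤ) (J : Fin q → Fin r)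
      (e : Fin q → ℕ) (lam : Fin q → ℚ) (F' G' : Fin t → MvPolynomial (Fin (n + 1)) ℤ)
      (k' e' : Fin t → ℕ) (R : MvPolynomial (Fin (n + 1)) ℤ) (d : ℕ) (S' : Finset ℕ)
      (M Λ c₀ : ℕ) (k : Fin r → ℕ) (w : Fin q → ℝ)
      (_ : Hyp F H J e (fun c => (lam c : ℝ)) F' G' k' R d S' k w) (θ : ℝ) (_ : 0 ≤ θ)
      (_ : θ < ∑ c, (lam c : ℝ) * w c), ∃ δ : ℝ, 0 < δ ∧
      {x : Fin (n + 1) → ℤ | (∃ c : Fin (n + 1) → ℤ, ∑ i, c i * x i = 1) ∧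
        dist ξ (ι x) ≤ Real.exp (-(((n : ℝ) + 1 - δ) / s * Real.log (ht x))) ∧
        ¬ Ineq2 F H J e (fun c => (lam c : ℝ)) F' G' k' e' R d S' M Λ c₀ θ (Real.log (ht x)) x}.Finite := by
  classical
  set P : Dat2 n → (Fin (n + 1) → ℤ) → Prop := fun D x =>
    match D with
    | ⟨r, q, t, J, e, lam, F, H, F', G', k', e', R, d, S', M, Λ, c₀, θ⟩ =>
      0 ≤ (θ : ℝ) ∧ (∃ (k : Fin r → ℕ) (w : Fin q → ℝ),
        Hyp F H J e (fun c => (lam c : ℝ)) F' G' k' R d S' k w ∧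
        (θ : ℝ) < ∑ c, (lam c : ℝ) * w c) ∧
      (∃ c : Fin (n + 1) → ℤ, ∑ i, c i * x i = 1) ∧
      ¬ Ineq2 F H J e (fun c => (lam c : ℝ)) F' G' k' e' R d S' M Λ c₀ (θ : ℝ)
        (Real.log (ht x)) x with hP
  have hsparse : ∀ D : Dat2 n, Sparse (n + 1) (fun _ x => P D x) := by
    rintro ⟨r, q, t, J, e, lam, F, H, F', G', k', e', R, d, S', M, Λ, c₀, θ⟩
    by_cases hv : 0 ≤ (θ : ℝ) ∧ (∃ (k : Fin r → ℕ) (w : Fin q → ℝ),
        Hyp F H J e (fun c => (lam c : ℝ)) F' G' k' R d S' k w ∧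
        (θ : ℝ) < ∑ c, (lam c : ℝ) * w c)
    · obtain ⟨hθ0, ⟨k, w, h1, h2⟩⟩ := hv
      refine (main_gen hn F H k h1.hom h1.irr h1.cop J e (fun c => (lam c : ℝ)) h1.lam0 w h1.wt
        F' G' k' e' h1.hom' h1.irr' h1.cop' R d h1.homR h1.R0 S' h1.S'p M Λ c₀ (θ : ℝ) h2).mono ?_
      rintro B x hB hx ⟨-, -, hprim, hlt⟩
      refine ⟨hprim, fun hI => hlt ?_⟩
      obtain ⟨i0, i1, i2, i3, i4⟩ := hI
      refine ⟨i0, i1, i2, i3, le_trans ?_ i4⟩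
      have hht : ht x ≤ B := nrm_le.2 hx
      have h0 := one_le_ht hprim
      have hlog : Real.log (ht x) ≤ Real.log B :=
        Real.log_le_log (by exact_mod_cast h0) (by exact_mod_cast hht)
      have := mul_le_mul_of_nonneg_left hlog hθ0
      linarith
    · refine (Sparse.false (n + 1)).mono ?_
      rintro B x - - ⟨g1, g2, -, -⟩
      exact hv ⟨g1, g2⟩
  have hne : Nonempty (Dat2 n) := ⟨⟨0, 0, 0, Fin.elim0, Fin.elim0, Fin.elim0, Fin.elim0, Fin.elim0, Fin.elim0,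
    Fin.elim0, Fin.elim0, Fin.elim0, 0, 0, ∅, 0, 0, 0, 0⟩⟩
  obtain ⟨en, hen⟩ : ∃ en : ℕ → Dat2 n, Function.Surjective en := exists_surjective_nat _
  obtain ⟨δ, hδ, hfam⟩ := metric_family (X := Fin (n + 1) → ℤ) (Y := Y) (fun x => Real.log (ht x))
    ht_log_nonneg ((n : ℝ) + 1) (by positivity) (fun i => {x | P (en i) x}) (fun i => sparse_exp _ (hsparse (en i)))
  obtain ⟨Θ, hΘ, hfin⟩ := hfam ι s hs
  refine ⟨Θ, hΘ, ?_⟩
  intro ξ hξ r q t F H J e lam F' G' k' e' R d S' M Λ c₀ k w hHyp θ hθ0 hθ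
  obtain ⟨θ', hθ1, hθ2⟩ := exists_rat_btwn hθ
  have hθ0' : (0 : ℝ) ≤ θ' := hθ0.trans hθ1.le
  obtain ⟨i, hi⟩ := hen ⟨r, q, t, J, e, lam, F, H, F', G', k', e', R, d, S', M, Λ, c₀, θ'⟩
  refine ⟨δ i, hδ i, ?_⟩
  have h1 := hfin ξ hξ i (δ i) le_rfl
  refine h1.subset ?_
  rintro x ⟨hprim, hx, hbad⟩
  refine ⟨?_, hx⟩
  show P (en i) x
  rw [hi]
  refine ⟨hθ0', ⟨k, w, hHyp, hθ2⟩, hprim, fun hI => hbad ?_⟩
  obtain ⟨i0, i1, i2, i3, i4⟩ := hI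
  refine ⟨i0, i1, i2, i3, le_trans ?_ i4⟩
  have h1 := mul_le_mul_of_nonneg_right hθ1.le (Real.log_natCast_nonneg (ht x))
  linarith

end Pool.Agent.D0H48.Mv
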