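import Mathlib

/-!
Dirichlet: the good rational approximations of a real point
-/

set_option autoImplicit false

namespace Pool.Agent.D0H48.Mv

/-- Dirichlet's theorem on simultaneous approximation -/
theorem dirichlet {n : ℕ} (ξ : Fin n → ℝ) (X : ℕ) (hX : 0 < X) :
    ∃ (q : ℕ) (p : Fin n → ℤ), 1 ≤ q ∧ q ≤ X ^ n ∧ ∀ i, |(q : ℝ) * ξ i - p i| * X ≤ 1 := by
  have hX' : (0:ℝ) < X := by exact_mod_cast hX
  have hfl : ∀ y : ℝ, ⌊(X:ℝ) * Int.fract y⌋₊ < X := by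
    intro y
    have h0 := Int.fract_nonneg y
    have h1 := Int.fract_lt_one y
    rw [Nat.floor_lt (by positivity)]
    nlinarith
  let f : Fin (X ^ n + 1) → (Fin n → Fin X) := fun t i =>
    ⟨⌊(X:ℝ) * Int.fract (((t:ℕ):ℝ) * ξ i)⌋₊, hfl _⟩
  have hcard : Fintype.card (Fin n → Fin X) < Fintype.card (Fin (X ^ n + 1)) := by
    simp
  obtain ⟨t1, t2, hne, heq⟩ := Fintype.exists_ne_map_eq_of_card_lt f hcard
  have key : ∀ s1 s2 : Fin (X ^ n + 1), (s1:ℕ) < s2 → f s1 = f s2 →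
      ∃ (q : ℕ) (p : Fin n → ℤ), 1 ≤ q ∧ q ≤ X ^ n ∧ ∀ i, |(q : ℝ) * ξ i - p i| * X ≤ 1 := by
    intro s1 s2 hlt hf
    refine ⟨(s2:ℕ) - s1, fun i => ⌊((s2:ℕ):ℝ) * ξ i⌋ - ⌊((s1:ℕ):ℝ) * ξ i⌋, by omega, ?_, ?_⟩
    · have := s2.2
      omega
    · intro i
      have h1 := congrFun hf i
      simp only [f, Fin.mk.injEq] at h1
      have e1 : (((s2:ℕ) - (s1:ℕ) : ℕ):ℝ) * ξ i -
          ((⌊((s2:ℕ):ℝ) * ξ i⌋ - ⌊((s1:ℕ):ℝ) * ξ i⌋ : ℤ) : ℝ) =
          Int.fract (((s2:ℕ):ℝ) * ξ i) - Int.fract (((s1:ℕ):ℝ) * ξ i) := by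
        rw [Nat.cast_sub hlt.le]
        unfold Int.fract
        push_cast
        ring
      rw [e1]
      have a0 : (0:ℝ) ≤ X * Int.fract (((s1:ℕ):ℝ) * ξ i) :=
        mul_nonneg hX'.le (Int.fract_nonneg _)
      have b0 : (0:ℝ) ≤ X * Int.fract (((s2:ℕ):ℝ) * ξ i) :=
        mul_nonneg hX'.le (Int.fract_nonneg _)
      have a1 := Nat.floor_le a0
      have a2 := Nat.lt_floor_add_one ((X:ℝ) * Int.fract (((s1:ℕ):ℝ) * ξ i))
      have b1 := Nat.floor_le b0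
      have b2 := Nat.lt_floor_add_one ((X:ℝ) * Int.fract (((s2:ℕ):ℝ) * ξ i))
      rw [h1] at a1 a2
      have e2 : |Int.fract (((s2:ℕ):ℝ) * ξ i) - Int.fract (((s1:ℕ):ℝ) * ξ i)| * X =
          |X * Int.fract (((s2:ℕ):ℝ) * ξ i) - X * Int.fract (((s1:ℕ):ℝ) * ξ i)| := by
        rw [← mul_sub, abs_mul, abs_of_pos hX', mul_comm]
      rw [e2, abs_le]
      constructor <;> linarith
  rcases lt_or_gt_of_ne (fun h => hne (Fin.ext h) : (t1:ℕ) ≠ t2) with h | h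
  · exact key t1 t2 h heq
  · exact key t2 t1 h heq.symm

/-- Dirichlet's theorem, with primitive vectors -/
theorem dirichlet_prim {n : ℕ} (ξ : Fin n → ℝ) (X : ℕ) (hX : 0 < X) :
    ∃ x : Fin (n + 1) → ℤ, Finset.univ.gcd x = 1 ∧ 1 ≤ x 0 ∧ (x 0 : ℝ) ≤ (X : ℝ) ^ n ∧
      ∀ i : Fin n, |(x 0 : ℝ) * ξ i - x i.succ| * X ≤ 1 := by
  obtain ⟨q, p, hq1, hqX, hp⟩ := dirichlet ξ X hX
  obtain ⟨x, hx, hg⟩ := Finset.extract_gcd (s := Finset.univ) (Fin.cons (q : ℤ) p : Fin (n + 1) → ℤ)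
    Finset.univ_nonempty
  obtain ⟨G, hG⟩ : ∃ G : ℤ, G = Finset.univ.gcd (Fin.cons (q : ℤ) p : Fin (n + 1) → ℤ) := ⟨_, rfl⟩
  rw [← hG] at hx
  have hG0 : 0 ≤ G := by
    rw [hG]
    exact Int.nonneg_of_normalize_eq_self Finset.normalize_gcd
  have hx0 : (q : ℤ) = G * x 0 := by
    have := hx 0 (Finset.mem_univ _)
    simpa using this
  have hxs : ∀ i : Fin n, p i = G * x i.succ := by
    intro i
    have := hx i.succ (Finset.mem_univ _)
    simpa using this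
  have hq0 : (0 : ℤ) < q := by exact_mod_cast hq1
  have hG1 : 0 < G := by
    rcases hG0.lt_or_eq with h | h
    · exact h
    · rw [← h, zero_mul] at hx0
      omega
  have hx1 : 0 < x 0 := by
    rw [hx0] at hq0
    exact (mul_pos_iff_of_pos_left hG1).1 hq0
  have hGR : (1 : ℝ) ≤ G := by exact_mod_cast hG1
  have hxR : (0 : ℝ) < x 0 := by exact_mod_cast hx1
  have hqR : (q : ℝ) = G * x 0 := by exact_mod_cast hx0
  refine ⟨x, hg, hx1, ?_, fun i => ?_⟩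
  · have h1 : (q : ℝ) ≤ (X : ℝ) ^ n := by exact_mod_cast hqX
    rw [hqR] at h1
    nlinarith
  · have h1 := hp i
    have h2 : (p i : ℝ) = G * x i.succ := by exact_mod_cast hxs i
    rw [hqR, h2, mul_assoc, ← mul_sub, abs_mul, abs_of_pos (by linarith : (0:ℝ) < G)] at h1
    have h3 : 0 ≤ |(x 0 : ℝ) * ξ i - x i.succ| * X := by positivity
    nlinarith

/-- the good rational approximations of an irrational point are infinitely many -/
theorem near_infinite {n : ℕ} (hn : 1 ≤ n) (ξ : Fin n → ℝ)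
    (hξ : ∃ i, Irrational (ξ i)) (δ : ℝ) (hδ : 0 < δ) :
    {x : Fin (n + 1) → ℤ | Finset.univ.gcd x = 1 ∧ x 0 ≠ 0 ∧
      dist ξ (fun i => (x i.succ : ℝ) / x 0) ≤
        ((Finset.univ.sup fun i => (x i).natAbs : ℕ) : ℝ) ^ (-(((n : ℝ) + 1 - δ) / n))}.Infinite := by
  intro hfin
  obtain ⟨i₀, hi₀⟩ := hξ
  have hn0 : (1 : ℝ) ≤ n := by exact_mod_cast hn
  obtain ⟨C, hC⟩ : ∃ C : ℝ, C = ‖ξ‖ + 1 := ⟨_, rfl⟩
  have hC1 : 1 ≤ C := by
    have := norm_nonneg ξ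
    linarith
  -- the points of the finite set are not too close
  obtain ⟨η, hη, hηx⟩ : ∃ η : ℝ, 0 < η ∧ ∀ x ∈ hfin.toFinset, η ≤ |(x 0 : ℝ) * ξ i₀ - x i₀.succ| := by
    obtain ⟨T, hT⟩ : ∃ T : Finset (Fin (n + 1) → ℤ), T = hfin.toFinset := ⟨_, rfl⟩
    have hpos : ∀ x ∈ T, 0 < |(x 0 : ℝ) * ξ i₀ - x i₀.succ| := by
      intro x hx
      rw [hT, Set.Finite.mem_toFinset] at hx
      obtain ⟨-, hx0, -⟩ := hx
      rw [abs_pos]
      intro h0
      refine hi₀ ⟨(x i₀.succ : ℚ) / x 0, ?_⟩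
      have hx0' : (x 0 : ℝ) ≠ 0 := by exact_mod_cast hx0
      push_cast
      field_simp
      linarith
    rw [← hT]
    clear hT
    induction T using Finset.induction_on with
    | empty => exact ⟨1, one_pos, by simp⟩
    | insert a s ha ih =>
      obtain ⟨η, hη, h⟩ := ih fun x hx => hpos x (Finset.mem_insert_of_mem hx)
      refine ⟨min η |(a 0 : ℝ) * ξ i₀ - a i₀.succ|,
        lt_min hη (hpos a (Finset.mem_insert_self _ _)), ?_⟩
      intro x hx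
      rw [Finset.mem_insert] at hx
      rcases hx with rfl | hx
      · exact min_le_right _ _
      · exact (min_le_left _ _).trans (h x hx)
  -- a large `X`
  obtain ⟨δ', hδ', hδ1, hδle⟩ : ∃ δ' : ℝ, 0 < δ' ∧ δ' ≤ 1 ∧ δ' ≤ δ :=
    ⟨min δ 1, lt_min hδ one_pos, min_le_right _ _, min_le_left _ _⟩
  obtain ⟨X, hX⟩ := exists_nat_gt (max (max (1 / η) ((C ^ 2) ^ (1 / δ'))) 1)
  have hX1 : (1 : ℝ) < X := (le_max_right _ _).trans_lt hX
  have hXη : 1 / η < X := ((le_max_left _ _).trans (le_max_left _ _)).trans_lt hX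
  have hXC : (C ^ 2) ^ (1 / δ') < X := ((le_max_right _ _).trans (le_max_left _ _)).trans_lt hX
  have hX0 : (0 : ℝ) < X := by linarith
  have hXδ : C ^ 2 ≤ (X : ℝ) ^ δ' := by
    have h1 := Real.rpow_le_rpow (by positivity) hXC.le hδ'.le
    rwa [← Real.rpow_mul (by positivity), one_div_mul_cancel hδ'.ne', Real.rpow_one] at h1
  obtain ⟨x, hg, hx1, hxX, hx⟩ := dirichlet_prim ξ X (by exact_mod_cast hX0)
  have hxR : (1 : ℝ) ≤ x 0 := by exact_mod_cast hx1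
  have hxR0 : (0 : ℝ) < x 0 := by linarith
  -- the height
  obtain ⟨h, hh⟩ : ∃ h : ℕ, h = Finset.univ.sup fun i => (x i).natAbs := ⟨_, rfl⟩
  have hh1 : (1 : ℝ) ≤ h := by
    have h1 : (x 0).natAbs ≤ h := by
      rw [hh]
      exact Finset.le_sup (f := fun i => (x i).natAbs) (Finset.mem_univ 0)
    have h2 : 1 ≤ h := by omega
    exact_mod_cast h2
  have hhC : (h : ℝ) ≤ C * x 0 := by
    have h1 : h ≤ ⌊C * x 0⌋₊ := by
      rw [hh]
      apply Finset.sup_le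
      intro i _
      rw [Nat.le_floor_iff (by positivity), Nat.cast_natAbs, Int.cast_abs]
      refine Fin.cases ?_ (fun i => ?_) i
      · rw [abs_of_pos hxR0]
        nlinarith
      · have h1 := hx i
        have h2 : |(x 0 : ℝ) * ξ i - x i.succ| ≤ 1 := by
          have h3 := abs_nonneg ((x 0 : ℝ) * ξ i - x i.succ)
          nlinarith
        have h3 : |(x i.succ : ℝ)| ≤ |(x 0 : ℝ) * ξ i| + |(x 0 : ℝ) * ξ i - x i.succ| := by
          have h4 : (x i.succ : ℝ) = (x 0 : ℝ) * ξ i - ((x 0 : ℝ) * ξ i - x i.succ) := by ring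
          calc |(x i.succ : ℝ)| = |(x 0 : ℝ) * ξ i - ((x 0 : ℝ) * ξ i - x i.succ)| := by rw [← h4]
            _ ≤ _ := abs_sub _ _
        have h4 : |(x 0 : ℝ) * ξ i| ≤ x 0 * ‖ξ‖ := by
          rw [abs_mul, abs_of_pos hxR0]
          refine mul_le_mul_of_nonneg_left ?_ hxR0.le
          exact norm_le_pi_norm ξ i
        rw [hC]
        nlinarith
    exact (Nat.le_floor_iff (by positivity)).1 h1
  have hmem : x ∈ hfin.toFinset := by
    rw [Set.Finite.mem_toFinset]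
    refine ⟨hg, by omega, ?_⟩
    rw [← hh]
    -- the distance is at most `1 / (X x_0)`
    have hdist : dist ξ (fun i => (x i.succ : ℝ) / x 0) ≤ 1 / (X * x 0) := by
      rw [dist_pi_le_iff (by positivity)]
      intro i
      rw [Real.dist_eq, le_div_iff₀ (by positivity)]
      have h1 : |ξ i - (x i.succ : ℝ) / x 0| * (X * x 0) = |(x 0 : ℝ) * ξ i - x i.succ| * X := by
        have h2 : (x 0 : ℝ) * ξ i - x i.succ = x 0 * (ξ i - (x i.succ : ℝ) / x 0) := by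
          field_simp
        rw [h2, abs_mul, abs_of_pos hxR0]
        ring
      rw [h1]
      exact hx i
    refine hdist.trans ?_
    rw [Real.rpow_neg (by positivity), one_div]
    apply inv_anti₀ (by positivity)
    have e0 : (0 : ℝ) ≤ ((n : ℝ) + 1 - δ') / n := by
      apply div_nonneg _ (by linarith)
      linarith
    have e1 : (h : ℝ) ^ (((n : ℝ) + 1 - δ) / n) ≤ (h : ℝ) ^ (((n : ℝ) + 1 - δ') / n) := by
      apply Real.rpow_le_rpow_of_exponent_le hh1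
      apply div_le_div_of_nonneg_right _ (by linarith)
      linarith
    have e2 : (h : ℝ) ^ (((n : ℝ) + 1 - δ') / n) ≤ (C * x 0) ^ (((n : ℝ) + 1 - δ') / n) :=
      Real.rpow_le_rpow (by positivity) hhC e0
    have e3 : (C * (x 0 : ℝ)) ^ (((n : ℝ) + 1 - δ') / n) =
        C ^ (((n : ℝ) + 1 - δ') / n) * (x 0 : ℝ) ^ (((n : ℝ) + 1 - δ') / n) :=
      Real.mul_rpow (by linarith) hxR0.le
    have e4 : C ^ (((n : ℝ) + 1 - δ') / n) ≤ C ^ 2 := by
      rw [← Real.rpow_natCast C 2]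
      apply Real.rpow_le_rpow_of_exponent_le hC1
      rw [div_le_iff₀ (by linarith)]
      push_cast
      linarith
    have e5 : (x 0 : ℝ) ^ (((n : ℝ) + 1 - δ') / n) ≤ x 0 * (X : ℝ) ^ (1 - δ') := by
      have h1 : ((n : ℝ) + 1 - δ') / n = 1 + (1 - δ') / n := by field_simp; ring
      rw [h1, Real.rpow_add hxR0, Real.rpow_one]
      refine mul_le_mul_of_nonneg_left ?_ hxR0.le
      have h2 : (x 0 : ℝ) ^ ((1 - δ') / n) ≤ ((X : ℝ) ^ n) ^ ((1 - δ') / n) :=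
        Real.rpow_le_rpow hxR0.le hxX (div_nonneg (by linarith) (by linarith))
      refine h2.trans (le_of_eq ?_)
      rw [← Real.rpow_natCast, ← Real.rpow_mul hX0.le]
      congr 1
      field_simp
    have e6 : (X : ℝ) ^ δ' * (X : ℝ) ^ (1 - δ') = X := by
      rw [← Real.rpow_add hX0]
      simp
    calc (h : ℝ) ^ (((n : ℝ) + 1 - δ) / n) ≤ C ^ (((n : ℝ) + 1 - δ') / n) * (x 0 : ℝ) ^ (((n : ℝ) + 1 - δ') / n) := by
          rw [← e3]; exact e1.trans e2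
      _ ≤ (X : ℝ) ^ δ' * (x 0 * (X : ℝ) ^ (1 - δ')) := by
          refine mul_le_mul (e4.trans hXδ) e5 (by positivity) (by positivity)
      _ = ((X : ℝ) ^ δ' * (X : ℝ) ^ (1 - δ')) * x 0 := by ring
      _ = X * x 0 := by rw [e6]
  have h1 := hηx x hmem
  have h2 := hx i₀
  have h3 : η * X ≤ 1 := (mul_le_mul_of_nonneg_right h1 hX0.le).trans h2
  rw [div_lt_iff₀ hη] at hXη
  linarith

end Pool.Agent.D0H48.Mv
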