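import Mathlib
import Pool.Agent.Results.MP_651af7_nt.UniversalExceptionalSet

/-!
The inequality outside a set, from the inequality outside sets which are larger only by finite sets
-/

set_option autoImplicit false

namespace Pool.Agent.D0H48.Mv

open Polynomial IsDedekindDomain NumberField
open Pool.Agent.Results.MP_651af7_nt.UniversalExceptionalSet

theorem ineq_final (K : Type) [Field K] [NumberField K] (m : ℕ) (hm : 0 < m) (E : Set (Fin m → K))
    (q : ℕ) (a : Fin q → ℚ) (κ κ' : ℝ) (hκ' : κ' ≤ κ / 2)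
    (E' : Set (Fin m → K)) (hI : Ineq K m q a κ' E')
    (hF1 : ((E' ∩ {x | ∀ i j, x i ≠ algebraMap ℚ K (a j)}) \ E).Finite)
    (n : ℕ) (hn : 1 ≤ n) (ε' : ℝ) (hε' : ε' ≤ κ / (2 * n)) (hκ : 0 < κ)
    (E'' : Set (Fin m → K)) (hJ : Pool.Agent.N751.UE.PropB K ε' E'') (hF2 : (E'' \ E).Finite)
    (k : Type) [Field k] [NumberField k] (A : Fin m → Type)
    [∀ i, CommRing (A i)] [∀ i, IsDedekindDomain (A i)] [∀ i, Algebra k (A i)]
    [∀ i, Algebra k[X] (A i)] [∀ i, IsScalarTower k k[X] (A i)]
    [∀ i, Module.Finite k[X] (A i)] [∀ i, FaithfulSMul k[X] (A i)]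
    (u : Fin m → Fin q → ℕ) (y : ∀ i j, Fin (u i j + 1) → A i)
    (hy0 : ∀ i j, y i j 0 = coord k (A i) - algebraMap k (A i) (algebraMap ℚ k (a j)))
    (hyr : ∀ i j l, y i j l ∈
      (Ideal.span {coord k (A i) - algebraMap k (A i) (algebraMap ℚ k (a j))}).radical)
    (G : MvPolynomial (Fin m) K) (hG : ∀ i, G.degreeOf i ≤ n) (T : Finset (FinitePlace K)) :
    ∃ c : ℝ, ∀ x : Fin m → K, x ∉ E → (∀ i j, x i ≠ algebraMap ℚ K (a j)) →
      MvPolynomial.eval x G ≠ 0 →
      ∀ (L : Type) [Field L] [NumberField L] [Algebra K L] [Algebra k L]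
        (φ : ∀ i, A i →ₐ[k] L),
        (∀ i, φ i (coord k (A i)) = algebraMap K L (x i)) →
        ∀ S : Finset ℕ, (∀ p ∈ S, p.Prime) →
          proximity S u y φ + proximityG n G T x +
              ∑ i, (degree k (y i) - κ) * height (x i) ≤
            logDisc L + ∑ p ∈ S, Real.log p + c := by
  classical
  have hnR : (1 : ℝ) ≤ n := by exact_mod_cast hn
  obtain ⟨d, hd⟩ : ∃ d : ℝ, d = (Module.finrank ℚ K : ℝ) := ⟨_, rfl⟩
  have hd0 : 0 < d := by rw [hd]; exact_mod_cast Module.finrank_pos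
  obtain ⟨c1, hc1⟩ := hI k A u y hy0 hyr
  obtain ⟨c3, hc3⟩ := hJ n hn G hG ((Finset.univ : Finset (InfinitePlace K)).disjSum
    (T.image FinitePlace.maximalIdeal))
  -- the constants for the remaining points
  obtain ⟨t2, ht2⟩ : ∃ t2 : (Fin m → K) → ℝ, t2 = fun x =>
    (∑ i, ∑ j, Height.logHeight₁ (x i - algebraMap ℚ K (a j))) / d +
      ∑ i, (degree k (y i) - κ / 2) * height (x i) := ⟨_, rfl⟩
  obtain ⟨c2, hc2⟩ : ∃ c2 : ℝ, c2 = ∑ x ∈ hF1.toFinset, |t2 x| := ⟨_, rfl⟩
  obtain ⟨c4, hc4⟩ : ∃ c4 : ℝ, c4 = ∑ x ∈ hF2.toFinset, |proximityG n G T x| := ⟨_, rfl⟩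
  have hc20 : 0 ≤ c2 := by rw [hc2]; exact Finset.sum_nonneg fun x _ => abs_nonneg _
  have hc40 : 0 ≤ c4 := by rw [hc4]; exact Finset.sum_nonneg fun x _ => abs_nonneg _
  refine ⟨|c1| + c2 + (|c3| / d + c4), ?_⟩
  intro x hxE hxa hxG L _ _ _ _ φ hφ S hS
  have hh : ∀ i, 0 ≤ height (x i) := fun i =>
    div_nonneg (Height.zero_le_logHeight₁ _) (Nat.cast_nonneg _)
  have hlogp : 0 ≤ ∑ p ∈ S, Real.log p := Finset.sum_nonneg fun p hp =>
    Real.log_nonneg (by exact_mod_cast (hS p hp).one_lt.le)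
  -- the first part
  have hfirst : proximity S u y φ + ∑ i, (degree k (y i) - κ / 2) * height (x i) ≤
      logDisc L + ∑ p ∈ S, Real.log p + (|c1| + c2) := by
    by_cases hx' : x ∈ E'
    · have hxF : x ∈ hF1.toFinset := by
        rw [Set.Finite.mem_toFinset]
        exact ⟨⟨hx', hxa⟩, hxE⟩
      have h1 : |t2 x| ≤ c2 := by
        rw [hc2]
        exact Finset.single_le_sum (f := fun x => |t2 x|) (fun _ _ => abs_nonneg _) hxF
      have h2 := (le_abs_self (t2 x)).trans h1
      have h3 : proximity S u y φ ≤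
          (∑ i, ∑ j, Height.logHeight₁ (x i - algebraMap ℚ K (a j))) / d := by
        rw [hd]
        refine Pool.Agent.N751.UE.prox_triv u (fun i j l => φ i (y i j l))
          (fun i j => x i - algebraMap ℚ K (a j)) (fun i j => sub_ne_zero.2 (hxa i j))
          (fun i j => ?_) (fun v => ∃ p ∈ S, (p : 𝓞 L) ∈ v.asIdeal)
        show φ i (y i j 0) = _
        rw [hy0, map_sub, hφ, AlgHom.commutes, map_sub]
        congr 1
        rw [eq_ratCast, eq_ratCast, map_ratCast, map_ratCast]
      have h4 := logDisc_nonneg L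
      have h5 := abs_nonneg c1
      rw [ht2] at h2
      beta_reduce at h2
      linarith
    · have h1 := hc1 x hx' hxa L φ hφ S hS
      have h2 : ∑ i, (degree k (y i) - κ / 2) * height (x i) ≤
          ∑ i, (degree k (y i) - κ') * height (x i) :=
        Finset.sum_le_sum fun i _ => mul_le_mul_of_nonneg_right (by linarith) (hh i)
      have h3 := le_abs_self c1
      linarith
  -- the second part
  have hsecond : proximityG n G T x ≤ κ / 2 * ∑ i, height (x i) + (|c3| / d + c4) := by
    have hS0 : 0 ≤ ∑ i, height (x i) := Finset.sum_nonneg fun i _ => hh i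
    by_cases hx' : x ∈ E''
    · have hxF : x ∈ hF2.toFinset := by
        rw [Set.Finite.mem_toFinset]
        exact ⟨hx', hxE⟩
      have h1 : |proximityG n G T x| ≤ c4 := by
        rw [hc4]
        exact Finset.single_le_sum (f := fun x => |proximityG n G T x|)
          (fun _ _ => abs_nonneg _) hxF
      have h2 := (le_abs_self (proximityG n G T x)).trans h1
      have h3 : 0 ≤ κ / 2 * ∑ i, height (x i) := by positivity
      have h4 : 0 ≤ |c3| / d := by positivity
      linarith
    · have h1 := hc3 x hx' hxG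
      rw [proximityG_eq, ← hd]
      have h2 : Pool.Agent.N753.LS.htm x ≤ ∑ i, Height.logHeight₁ (x i) :=
        Pool.Agent.N753.LS.htm_le hm fun i =>
          Finset.single_le_sum (f := fun i => Height.logHeight₁ (x i))
            (fun j _ => Height.zero_le_logHeight₁ _) (Finset.mem_univ i)
      have h3 : ε' * n ≤ κ / 2 := by
        have := mul_le_mul_of_nonneg_right hε' (show (0 : ℝ) ≤ n by linarith)
        refine this.trans (le_of_eq ?_)
        field_simp
      have h0 : 0 ≤ ∑ i, Height.logHeight₁ (x i) :=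
        Finset.sum_nonneg fun i _ => Height.zero_le_logHeight₁ _
      have hht0 : 0 ≤ Pool.Agent.N753.LS.htm x :=
        le_trans (Height.zero_le_logHeight₁ _) (Pool.Agent.N753.LS.le_htm x ⟨0, hm⟩)
      have h4 : ε' * n * Pool.Agent.N753.LS.htm x ≤ κ / 2 * ∑ i, Height.logHeight₁ (x i) := by
        have h5 : ε' * n * Pool.Agent.N753.LS.htm x ≤ κ / 2 * Pool.Agent.N753.LS.htm x :=
          mul_le_mul_of_nonneg_right h3 hht0
        exact h5.trans (mul_le_mul_of_nonneg_left h2 (by linarith))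
      have h5 : ∑ i, height (x i) = (∑ i, Height.logHeight₁ (x i)) / d := by
        unfold height
        rw [← hd, Finset.sum_div]
      have h6 := le_abs_self c3
      have h7 := div_le_div_of_nonneg_right (h1.trans (add_le_add h4 h6)) hd0.le
      refine h7.trans ?_
      rw [h5, add_div, mul_div_assoc]
      linarith
  have hthird : ∑ i, (degree k (y i) - κ) * height (x i) =
      ∑ i, (degree k (y i) - κ / 2) * height (x i) - κ / 2 * ∑ i, height (x i) := by
    rw [Finset.mul_sum, ← Finset.sum_sub_distrib]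
    refine Finset.sum_congr rfl fun i _ => ?_
    ring
  rw [hthird]
  linarith

end Pool.Agent.D0H48.Mv
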