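import Mathlib
import Pool.Agent.D0H48.Mv.Fam
import Pool.Agent.D0H48.Mv.Ineq

/-!
The exceptional sets of the inequality and the good approximations of almost every point
-/

set_option autoImplicit false

namespace Pool.Agent.D0H48.Mv

open Polynomial IsDedekindDomain NumberField
open Pool.Agent.Results.MP_651af7_nt.UniversalExceptionalSet
open Pool.Agent.N753.LS Pool.Agent.N751.PR

/-- the good approximations of `θ` -/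
def Nr {K : Type} [Field K] [NumberField K] {m : ℕ} {Y : Type} [MetricSpace Y]
    (ι : (Fin m → K) → Y) (s : ℝ) (θ : Y) (δ : ℝ) : Set (Fin m → K) :=
  {x | dist θ (ι x) ≤ Real.exp (-((2 * m - δ) / s * htm x))}

theorem univ_metric (K : Type) [Field K] [NumberField K] {m : ℕ} (hm : 0 < m) {Y : Type}
    [MetricSpace Y] (ι : (Fin m → K) → Y) (s : ℝ) (hs : 0 < s) :
    ∃ Θ : ℕ → Set Y, (∀ i, dimH (Θ i) < ENNReal.ofReal s) ∧ ∀ θ, (∀ i, θ ∉ Θ i) →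
      (∀ q : ℕ, 3 ≤ q → ∀ a : Fin q → ℚ, Function.Injective a → ∀ κ : ℝ, 0 < κ →
        ∃ (δ κ' : ℝ) (E' : Set (Fin m → K)), 0 < δ ∧ 0 < κ' ∧ κ' ≤ κ ∧ Ineq K m q a κ' E' ∧
          ∀ δ' ≤ δ, ((E' ∩ {x | ∀ i j, x i ≠ algebraMap ℚ K (a j)}) ∩ Nr ι s θ δ').Finite) ∧
      ∀ ε : ℝ, 0 < ε → ∃ (δ ε' : ℝ) (E' : Set (Fin m → K)), 0 < δ ∧ 0 < ε' ∧ ε' ≤ ε ∧
        Pool.Agent.N751.UE.PropB K ε' E' ∧ ∀ δ' ≤ δ, (E' ∩ Nr ι s θ δ').Finite := by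
  classical
  have hinv : ∀ j : ℕ, (0 : ℝ) < 1 / ((j : ℝ) + 1) := fun j => by positivity
  have hmR : (0 : ℝ) < m := by exact_mod_cast hm
  -- the sets of the first kind
  have h1 : ∀ (p : (Σ q : ℕ, Fin q → ℚ) × ℕ), ∃ E : Set (Fin m → K),
      ((3 ≤ p.1.1 ∧ Function.Injective p.1.2) → Ineq K m p.1.1 p.1.2 (1 / ((p.2 : ℝ) + 1)) E) ∧
      ∃ C ν : ℝ, 0 < ν ∧ ∀ H : ℝ, 0 ≤ H →
        (((E ∩ {x | ∀ i j, x i ≠ algebraMap ℚ K (p.1.2 j)}) ∩ {x | htm x ≤ H}).ncard : ℝ) ≤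
          C * Real.exp ((2 * m - ν) * H) := by
    intro p
    by_cases h : 3 ≤ p.1.1 ∧ Function.Injective p.1.2
    · obtain ⟨E, hE1, hE2⟩ := ineq_of (K := K) hm h.1 h.2 (hinv p.2)
      exact ⟨E, fun _ => hE1, hE2⟩
    · refine ⟨∅, fun h' => absurd h' h, 0, 1, one_pos, fun H hH => ?_⟩
      rw [Set.empty_inter, Set.empty_inter, Set.ncard_empty, Nat.cast_zero, zero_mul]
  choose EA hEA1 hEA2 using h1
  -- the sets of the second kind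
  have h2 : ∀ j : ℕ, ∃ E : Set (Fin m → K), Pool.Agent.N751.UE.PropB K (1 / ((j : ℝ) + 1)) E ∧
      ∃ C ν : ℝ, 0 < ν ∧ ∀ H : ℝ, 0 ≤ H →
        ((E ∩ {x | htm x ≤ H}).ncard : ℝ) ≤ C * Real.exp ((2 * m - ν) * H) := by
    intro j
    obtain ⟨E, ⟨ν, C, hν, hE1⟩, hE2⟩ := exists_E3 K hm (hinv j)
    exact ⟨E, hE2, C, ν, hν, hE1⟩
  choose EB hEB1 hEB2 using h2
  obtain ⟨e, he⟩ : ∃ e : ℕ → ((Σ q : ℕ, Fin q → ℚ) × ℕ) ⊕ ℕ, Function.Surjective e :=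
    exists_surjective_nat _
  have hctK : Countable K := countable_K K
  have hfam0 : ∀ i, ∃ C ν : ℝ, 0 < ν ∧ ∀ H : ℝ, 0 ≤ H →
      ((Sum.elim (fun p => EA p ∩ {x | ∀ i j, x i ≠ algebraMap ℚ K (p.1.2 j)}) (fun j => EB j) (e i) :
        Set (Fin m → K)) ∩ {x | htm x ≤ H}).Finite ∧
      (((Sum.elim (fun p => EA p ∩ {x | ∀ i j, x i ≠ algebraMap ℚ K (p.1.2 j)}) (fun j => EB j) (e i) :
        Set (Fin m → K)) ∩ {x | htm x ≤ H}).ncard : ℝ) ≤ C * Real.exp ((2 * m - ν) * H) := by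
    intro i
    rcases e i with p | j
    · obtain ⟨C, ν, hν, h⟩ := hEA2 p
      exact ⟨C, ν, hν, fun H hH => ⟨(box_fin H).inter_of_right _, h H hH⟩⟩
    · obtain ⟨C, ν, hν, h⟩ := hEB2 j
      exact ⟨C, ν, hν, fun H hH => ⟨(box_fin H).inter_of_right _, h H hH⟩⟩
  have hht0 : ∀ x : Fin m → K, 0 ≤ htm x := fun x =>
    le_trans (Height.zero_le_logHeight₁ _) (le_htm x ⟨0, hm⟩)
  obtain ⟨δ, hδ, hfam⟩ := metric_family (X := Fin m → K) (Y := Y) (fun x => htm x) hht0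
    (2 * m) (by positivity) _ hfam0
  obtain ⟨Θ, hΘ, hfin⟩ := hfam ι s hs
  refine ⟨Θ, hΘ, fun θ hθ => ⟨?_, ?_⟩⟩
  · intro q hq a ha κ hκ
    obtain ⟨j, hj⟩ := exists_nat_one_div_lt hκ
    obtain ⟨n, hn⟩ := he (Sum.inl (⟨q, a⟩, j))
    refine ⟨δ n, 1 / ((j : ℝ) + 1), EA (⟨q, a⟩, j), hδ n, hinv j, hj.le,
      hEA1 (⟨q, a⟩, j) ⟨hq, ha⟩, fun δ' hδ' => ?_⟩
    have h3 := hfin θ hθ n δ' hδ'
    rw [hn] at h3
    exact h3
  · intro ε hε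
    obtain ⟨j, hj⟩ := exists_nat_one_div_lt hε
    obtain ⟨n, hn⟩ := he (Sum.inr j)
    refine ⟨δ n, 1 / ((j : ℝ) + 1), EB j, hδ n, hinv j, hj.le, hEB1 j, fun δ' hδ' => ?_⟩
    have h3 := hfin θ hθ n δ' hδ'
    rw [hn] at h3
    exact h3

end Pool.Agent.D0H48.Mv
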